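import Mathlib

/-!
# Few slots suffice: combinatorics
-/

set_option autoImplicit false

open Finset

namespace Pool.Agent.U625.CP

/-- A part of at most `2 c` slots is good. `g ψ l` is the absolute value of the number with the index
`l` at the place `ψ`, and `t` is that of `q`. -/
theorem few {ι Ψ Ω : Type*} (g : Ψ → ι → ℝ) (hg : ∀ ψ l, 0 ≤ g ψ l) {t : ℝ} (ht0 : 0 < t)
    (ht1 : t ≤ 1) (x : ι → Ω) (P : ι → Prop) (hP : ∀ ψ l, ¬ P l → g ψ l = 1)
    (h : (∀ ψ l, P l → g ψ l ^ 2 ≤ t) ∨ ∃ unit : Ψ → Ω → Prop,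
      (∀ ψ l, P l → unit ψ (x l) → g ψ l = 1) ∧ (∀ ψ l, P l → ¬ unit ψ (x l) → g ψ l ≤ t) ∧
      ∀ ψ l l', P l → P l' → unit ψ (x l) → unit ψ (x l') → x l = x l')
    {n : ℕ} (I : Fin n → ι) (c : ℕ) (hc : ∀ ψ, ∏ j, g ψ (I j) ≤ t ^ c) :
    ∃ S : Finset (Fin n), S.card ≤ 2 * c ∧ ∀ ψ, ∏ j ∈ S, g ψ (I j) ≤ t ^ c := by
  classical
  obtain ⟨S, hS, hmin⟩ := Finset.exists_min_image
    (Finset.univ.filter fun S : Finset (Fin n) => ∀ ψ, ∏ j ∈ S, g ψ (I j) ≤ t ^ c)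
    Finset.card ⟨Finset.univ, by simpa using hc⟩
  have hgood : ∀ ψ, ∏ j ∈ S, g ψ (I j) ≤ t ^ c := (Finset.mem_filter.1 hS).2
  refine ⟨S, ?_, hgood⟩
  by_contra hcard
  push Not at hcard
  -- witnesses
  have hwit : ∀ z ∈ S, ∃ ψ, t ^ c < ∏ j ∈ S.erase z, g ψ (I j) := by
    intro z hz
    by_contra hcon
    push Not at hcon
    have h1 := hmin (S.erase z) (Finset.mem_filter.2 ⟨Finset.mem_univ _, hcon⟩)
    have h2 := Finset.card_erase_lt_of_mem hz
    omega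
  have hne1 : ∀ z ∈ S, ∀ ψ, t ^ c < ∏ j ∈ S.erase z, g ψ (I j) → g ψ (I z) ≠ 1 := by
    intro z hz ψ hψ h1
    have h2 := hgood ψ
    rw [← Finset.mul_prod_erase S (fun j => g ψ (I j)) hz, h1, one_mul] at h2
    exact absurd h2 (not_le.2 hψ)
  have hPS : ∀ z ∈ S, P (I z) := by
    intro z hz
    by_contra hcon
    obtain ⟨ψ, hψ⟩ := hwit z hz
    exact hne1 z hz ψ hψ (hP ψ _ hcon)
  obtain ⟨z₀, hz₀⟩ : S.Nonempty := Finset.card_pos.1 (by omega)
  rcases h with hB | ⟨unit, hu1, hu2, hu3⟩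
  · obtain ⟨ψ, hψ⟩ := hwit z₀ hz₀
    have h1 : (∏ j ∈ S.erase z₀, g ψ (I j)) ^ 2 ≤ (t ^ c) ^ 2 := by
      rw [← Finset.prod_pow]
      calc ∏ j ∈ S.erase z₀, g ψ (I j) ^ 2 ≤ ∏ _j ∈ S.erase z₀, t :=
            Finset.prod_le_prod (fun j _ => sq_nonneg _) fun j hj =>
              hB ψ _ (hPS j (Finset.mem_of_mem_erase hj))
        _ = t ^ (S.erase z₀).card := by rw [Finset.prod_const]
        _ ≤ t ^ (c * 2) := pow_le_pow_of_le_one ht0.le ht1 (by
            rw [Finset.card_erase_of_mem hz₀]; omega)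
        _ = (t ^ c) ^ 2 := pow_mul t c 2
    have h2 := (pow_le_pow_iff_left₀ (Finset.prod_nonneg fun j _ => hg ψ _) (pow_nonneg ht0.le c)
      two_ne_zero).1 h1
    exact absurd h2 (not_le.2 hψ)
  · -- the unit slots
    have hU : ∀ z ∈ S, ∀ ψ, t ^ c < ∏ j ∈ S.erase z, g ψ (I j) →
        S.card ≤ ((S.erase z).filter fun j => unit ψ (x (I j))).card + c := by
      intro z hz ψ hψ
      by_contra hcon
      push Not at hcon
      refine absurd ?_ (not_le.2 hψ)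
      rw [← Finset.prod_filter_mul_prod_filter_not (S.erase z) (fun j => unit ψ (x (I j)))]
      have h1 : ∏ j ∈ (S.erase z).filter (fun j => unit ψ (x (I j))), g ψ (I j) = 1 :=
        Finset.prod_eq_one fun j hj => hu1 ψ _ (hPS j (Finset.mem_of_mem_erase
          (Finset.mem_filter.1 hj).1)) (Finset.mem_filter.1 hj).2
      rw [h1, one_mul]
      calc ∏ j ∈ (S.erase z).filter (fun j => ¬ unit ψ (x (I j))), g ψ (I j) ≤
            ∏ _j ∈ (S.erase z).filter (fun j => ¬ unit ψ (x (I j))), t :=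
            Finset.prod_le_prod (fun j _ => hg ψ _) fun j hj =>
              hu2 ψ _ (hPS j (Finset.mem_of_mem_erase (Finset.mem_filter.1 hj).1))
                (Finset.mem_filter.1 hj).2
        _ = t ^ ((S.erase z).filter (fun j => ¬ unit ψ (x (I j)))).card := by
            rw [Finset.prod_const]
        _ ≤ t ^ c := pow_le_pow_of_le_one ht0.le ht1 (by
            have h2 := Finset.card_filter_add_card_filter_not (s := S.erase z)
              (fun j => unit ψ (x (I j)))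
            rw [Finset.card_erase_of_mem hz] at h2
            omega)
    obtain ⟨ψ₀, hψ₀⟩ := hwit z₀ hz₀
    have h0 := hU z₀ hz₀ ψ₀ hψ₀
    obtain ⟨z₁, hz₁⟩ : ((S.erase z₀).filter fun j => unit ψ₀ (x (I j))).Nonempty :=
      Finset.card_pos.1 (by omega)
    have hz₁S : z₁ ∈ S := Finset.mem_of_mem_erase (Finset.mem_filter.1 hz₁).1
    obtain ⟨ψ₁, hψ₁⟩ := hwit z₁ hz₁S
    have h1 := hU z₁ hz₁S ψ₁ hψ₁
    obtain ⟨j, hj0, hj1⟩ : ∃ j, j ∈ (S.erase z₀).filter (fun j => unit ψ₀ (x (I j))) ∧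
        j ∈ (S.erase z₁).filter (fun j => unit ψ₁ (x (I j))) := by
      by_contra hcon
      push Not at hcon
      have hdis : Disjoint ((S.erase z₀).filter fun j => unit ψ₀ (x (I j)))
          ((S.erase z₁).filter fun j => unit ψ₁ (x (I j))) :=
        Finset.disjoint_left.2 hcon
      have h2 := Finset.card_le_card (Finset.union_subset
        ((Finset.filter_subset (fun j => unit ψ₀ (x (I j))) (S.erase z₀)).trans
          (Finset.erase_subset _ _))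
        ((Finset.filter_subset (fun j => unit ψ₁ (x (I j))) (S.erase z₁)).trans
          (Finset.erase_subset _ _)))
      rw [Finset.card_union_of_disjoint hdis] at h2
      omega
    have hjS : j ∈ S := Finset.mem_of_mem_erase (Finset.mem_filter.1 hj0).1
    have e1 : x (I j) = x (I z₁) := hu3 ψ₀ _ _ (hPS j hjS) (hPS z₁ hz₁S)
      (Finset.mem_filter.1 hj0).2 (Finset.mem_filter.1 hz₁).2
    have e2 : unit ψ₁ (x (I z₁)) := by
      rw [← e1]
      exact (Finset.mem_filter.1 hj1).2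
    exact hne1 z₁ hz₁S ψ₁ hψ₁ (hu1 ψ₁ _ (hPS z₁ hz₁S) e2)

/-- With a prescribed number of slots. -/
theorem few' {ι Ψ Ω : Type*} (g : Ψ → ι → ℝ) (hg : ∀ ψ l, 0 ≤ g ψ l) (hg1 : ∀ ψ l, g ψ l ≤ 1)
    {t : ℝ} (ht0 : 0 < t)
    (ht1 : t ≤ 1) (x : ι → Ω) (P : ι → Prop) (hP : ∀ ψ l, ¬ P l → g ψ l = 1)
    (h : (∀ ψ l, P l → g ψ l ^ 2 ≤ t) ∨ ∃ unit : Ψ → Ω → Prop,
      (∀ ψ l, P l → unit ψ (x l) → g ψ l = 1) ∧ (∀ ψ l, P l → ¬ unit ψ (x l) → g ψ l ≤ t) ∧
      ∀ ψ l l', P l → P l' → unit ψ (x l) → unit ψ (x l') → x l = x l')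
    {n : ℕ} (I : Fin n → ι) (c : ℕ) (hc : ∀ ψ, ∏ j, g ψ (I j) ≤ t ^ c) {N : ℕ} (hN : 2 * c ≤ N)
    (hNn : N ≤ n) :
    ∃ S : Finset (Fin n), S.card = N ∧ ∀ ψ, ∏ j ∈ S, g ψ (I j) ≤ t ^ c := by
  classical
  obtain ⟨S, h1, h2⟩ := few g hg ht0 ht1 x P hP h I c hc
  obtain ⟨S', h3, -, h4⟩ := Finset.exists_subsuperset_card_eq (Finset.subset_univ S)
    (show S.card ≤ N by omega) (by rw [Finset.card_univ, Fintype.card_fin]; exact hNn)
  refine ⟨S', h4, fun ψ => le_trans ?_ (h2 ψ)⟩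
  rw [← Finset.prod_sdiff h3]
  exact mul_le_of_le_one_left (Finset.prod_nonneg fun j _ => hg ψ _)
    (Finset.prod_le_one (fun j _ => hg ψ _) fun j _ => hg1 ψ _)

end Pool.Agent.U625.CP
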