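import Pool.Agent.U625.GP.Defs

/-!
# Varieties with one small slope and the generalized Tate conjecture up to coniveau `c`: definitions
-/

open CategoryTheory AlgebraicGeometry

universe u v

namespace Pool.Agent.U625.CP

open Pool.Agent.H914 Pool.Agent.H914.VarClass Pool.Agent.H914.VarClass.Obj
  Pool.Agent.H914.WeilCohomology Pool.Agent.W534 Pool.Agent.R940 Pool.Agent.N204.GT
open Pool.Agent.Y163 (pw)

variable {k : Type u} [Field k] {𝒱 : VarClass k} {ops : CycleOps 𝒱}
  {W : WeilCohomology.{u, v} ops} {p : ℕ}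

/-- The element `y` of an algebraic closure of the field of `p`-adic numbers is a Frobenius eigenvalue
on `H^i(X)`: it is a root of the characteristic polynomial (with integral coefficients) of the
Frobenius endomorphism of `X`, over the field with `p ^ (Φ.e X)` elements, on `H^i(X)`. -/
def IsPadicEigenvalue [Fact p.Prime] (Φ : FrobSystem W p) (σ : W.K →+* ℂ) (X : 𝒱.Obj) (i : ℕ)
    (y : PadicAlgCl p) : Prop :=
  ∃ P : Polynomial ℤ, P.map (Int.castRingHom ℂ) = frobPoly Φ σ X 1 i ∧ Polynomial.aeval y P = 0

/-- `X` has one small slope, where `q = p ^ (Φ.e X)`: all Frobenius eigenvalues in the positive degrees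
have `p`-adic absolute values at most `q ^ (-1/2)` (slopes at least `1/2`), or all but one of them have
absolute values at most `1 / q` (slopes at least `1`), and the exceptional one is a unit (slope `0`;
it may be a multiple eigenvalue). This holds for all reductions of varieties with one holomorphic
form: K3 surfaces and Calabi-Yau varieties of any height, elliptic curves. -/
def HasOneSmallSlope [Fact p.Prime] (Φ : FrobSystem W p) (σ : W.K →+* ℂ) (X : 𝒱.Obj) : Prop :=
  (∀ (i : ℕ) (y : PadicAlgCl p), 1 ≤ i → IsPadicEigenvalue Φ σ X i y →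
    ‖y‖ ^ 2 ≤ ((p : ℝ) ^ Φ.e X)⁻¹) ∨
  ∃ y₀ : PadicAlgCl p, ‖y₀‖ = 1 ∧ ∀ (i : ℕ) (y : PadicAlgCl p), 1 ≤ i →
    IsPadicEigenvalue Φ σ X i y → y = y₀ ∨ ‖y‖ ≤ ((p : ℝ) ^ Φ.e X)⁻¹

/-- The class `x` on `X ^ (n + 1)` is a product `f^* y ∪ b` of any class `b` and the pull-back under the
projection `f` to `N + 1` different factors of a class `y` on `X ^ (N + 1)` which lies in a subspace
`V` of `H^j(X ^ (N + 1))`, for some `j`, stable under Frobenius, with `V(c)` effective. -/
def IsFromPower (Φ : FrobSystem W p) (X : 𝒱.Obj) (n N c : ℕ) (x : W.H (pw X n)) : Prop :=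
  ∃ (e : Fin (N + 1) → Fin (n + 1)) (f : pw X n ⟶ pw X N) (j : ℕ) (y : W.H (pw X N))
    (b : W.H (pw X n)), Function.Injective e ∧ IsProjection e f ∧ InEffective Φ j c y ∧
    x = W.map f y * b

/-- The generalized Tate conjecture for `Y` up to coniveau `c`: for all `i` and all `j ≤ c`, all
subspaces `V` of `H^i(Y)` which are stable under the Frobenius endomorphism over a finite field, with
`V(j)` effective, are contained in `N^j H(Y)`. -/
def GTCUpTo (Φ : FrobSystem W p) (c : ℕ) (Y : 𝒱.Obj) : Prop :=
  ∀ (i j : ℕ) (V : Subspace W Y), j ≤ c → IsEffective Φ i j V → Within V (coniveau W j Y)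

/-- `Y` is dominated by `Y'`: there are a morphism `f` from `Y'` to `Y` and an algebraic cycle on `Y'`
whose class has the image `r ≠ 0` in `H^0(Y)` under the Gysin homomorphism of `f`. (For a surjective
morphism of smooth projective varieties a power of an ample divisor has this property.) -/
def IsDominatedBy (W : WeilCohomology.{u, v} ops) (Y' Y : 𝒱.Obj) : Prop :=
  ∃ (f : Y' ⟶ Y) (j : ℕ) (z : Y'.Cycles) (r : W.K), Y'.IsCyc j z ∧ r ≠ 0 ∧
    app (W.push f) (W.cl Y' z) = algebraMap W.K (W.H Y) r

end Pool.Agent.U625.CP
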