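import Pool.Agent.U625.CP.Main

/-!
# Few factors suffice for small coniveau: dominated varieties
-/

set_option linter.unusedVariables false
set_option linter.unusedSectionVars false

open CategoryTheory AlgebraicGeometry CategoryTheory.Limits TensorProduct

universe u v

namespace Pool.Agent.U625.CP

open Pool.Agent.H914 Pool.Agent.H447 Pool.Agent.W534 Pool.Agent.Y163 VarClass Obj WeilCohomology
  Module Polynomial
open Pool.Agent.R940 hiding mem_of_baseChange
open Pool.Agent.N204.GT
open Pool.Agent.U625.GP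
open Pool.Agent.R908 (baseFrob)
open Pool.Agent.N204.GH (cv push_cv ext_cv cv_anti push_mem_cv map_iso_cv bij_of_perm cv_ind)

variable {k : Type u} [Field k] {𝒱 : VarClass k} {ops : CycleOps 𝒱}
  {W : WeilCohomology.{u, v} ops} {X Y Y' Z U S : 𝒱.Obj} {p : ℕ}
  [hp : Fact p.Prime] {Φ : FrobSystem W p} {σ : W.K →+* ℂ}

/-- **The conjecture up to coniveau `c` passes to dominated varieties.** -/
theorem gtc_dom (hcyc : CyclesHaveConiveau W) {c : ℕ} (h : IsDominatedBy W Y' Y)
    (hY : GTCUpTo Φ c Y') : GTCUpTo Φ c Y := by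
  obtain ⟨f, j, z, r, hz, hr, h1⟩ := h
  have hclosed : IsAlgClosed (baseW W (AlgebraicClosure W.K)).K :=
    inferInstanceAs (IsAlgClosed (AlgebraicClosure W.K))
  have hbase := cyc_base (L := AlgebraicClosure W.K) hcyc
  refine (gcu_iff (L := AlgebraicClosure W.K) fun _ _ _ => Iff.rfl).2
    (GCU.of_dom (W := baseW W (AlgebraicClosure W.K)) hbase (f := f) (j := j) (z := z)
      (r := algebraMap W.K (AlgebraicClosure W.K) r) hz
      ((map_ne_zero_iff _ (algebraMap W.K (AlgebraicClosure W.K)).injective).2 hr) ?_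
      ((gcu_iff (L := AlgebraicClosure W.K) fun _ _ _ => Iff.rfl).1 hY))
  have h2 : W.push f (W.cl Y' z) = algebraMap W.K (W.H Y) r := h1
  have h3 : (W.push f).baseChange (AlgebraicClosure W.K)
      ((1 : AlgebraicClosure W.K) ⊗ₜ[W.K] (W.cl Y' z)) =
      (algebraMap W.K (AlgebraicClosure W.K) r) •
        ((1 : AlgebraicClosure W.K) ⊗ₜ[W.K] (1 : W.H Y)) := by
    rw [LinearMap.baseChange_tmul, h2, Algebra.algebraMap_eq_smul_one, TensorProduct.tmul_smul,
      algebraMap_smul]
  exact h3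

/-- Projections. -/
lemma dom_proj (hX : HasBigDivisor ops X) (Y : 𝒱.Obj) : IsDominatedBy W (X.prod Y) Y := by
  obtain ⟨E, hE, hbig⟩ := hX
  refine ⟨snd X Y, X.dim, ops.pull (fst X Y) (divPow ops E X.dim X.V.fundCycle),
    W.tr X (W.cl X E ^ X.dim), ops.pull_mem _ (divPow_fund_mem hE _), hbig.tr hE, ?_⟩
  change W.push (snd X Y) _ = _
  rw [W.cl_pull, cl_divPow_fund, W.push_snd', Algebra.algebraMap_eq_smul_one]

/-- **All powers.** -/
theorem gtc_all (hW : WeilConjectures Φ σ X) (hX : HasOneSmallSlope Φ σ X)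
    (hcyc : CyclesHaveConiveau W) (hb : HasBigDivisor ops X) {N c : ℕ}
    (hN : 2 * c ≤ N + 1) (h : GTCUpTo Φ c (pw X N)) (n : ℕ) : GTCUpTo Φ c (pw X n) := by
  rcases Nat.le_total N n with h1 | h1
  · exact gtc_le hW hX hN h1 h
  · clear hN
    induction N, h1 using Nat.le_induction with
    | base => exact h
    | succ M _ ih => exact ih (gtc_dom hcyc (dom_proj hb (pw X M)) h)

end Pool.Agent.U625.CP
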