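import Pool.Agent.U625.CP.Split
import Pool.Agent.U625.KP.Main

/-!
# Few factors suffice for small coniveau: the theorems
-/

set_option linter.unusedVariables false
set_option linter.unusedSectionVars false

open CategoryTheory AlgebraicGeometry CategoryTheory.Limits TensorProduct

universe u v

namespace Pool.Agent.U625.CP

open Pool.Agent.H914 Pool.Agent.H447 Pool.Agent.W534 Pool.Agent.Y163 VarClass Obj WeilCohomology
  Module Polynomial
open Pool.Agent.R940 hiding mem_of_baseChange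
open Pool.Agent.N204.GT
open Pool.Agent.U625.GP
open Pool.Agent.R908 (baseFrob)
open Pool.Agent.N204.GH (cv push_cv ext_cv cv_anti push_mem_cv map_iso_cv bij_of_perm cv_ind)

variable {k : Type u} [Field k] {𝒱 : VarClass k} {ops : CycleOps 𝒱}
  {W : WeilCohomology.{u, v} ops} {X Y Y' Z U S : 𝒱.Obj} {p : ℕ}
  [hp : Fact p.Prime] {Φ : FrobSystem W p} {σ : W.K →+* ℂ}

lemma slope_base' {L : Type v} [Field L] [Algebra W.K L] {σ' : L →+* ℂ}
    (hσ : σ'.comp (algebraMap W.K L) = σ) (hX : HasOneSmallSlope Φ σ X) :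
    HasOneSmallSlope (baseFrob Φ L) σ' X := by
  have h1 : ∀ i y, IsPadicEigenvalue (baseFrob Φ L) σ' X i y → IsPadicEigenvalue Φ σ X i y := by
    rintro i y ⟨P, hP, hy⟩
    exact ⟨P, by rw [hP, frobPoly_base hσ], hy⟩
  rcases hX with h | ⟨y₀, h0, h⟩
  · exact Or.inl fun i y hi hy => h i y hi (h1 i y hy)
  · exact Or.inr ⟨y₀, h0, fun i y hi hy => h i y hi (h1 i y hy)⟩

/-- Products over the field of the coefficients. -/
def FromL (Φ : FrobSystem W p) (X : 𝒱.Obj) (n N c : ℕ) (x : W.H (pw X n)) : Prop :=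
  ∃ (e : Fin (N + 1) → Fin (n + 1)) (j : ℕ) (V' : Submodule W.K (W.H (pw X N)))
    (v : W.H (pw X N)) (w : W.H (pw X n)), Function.Injective e ∧
    Eff (AlgebraicClosure W.K) Φ j c V' ∧ v ∈ V' ∧ x = W.map (proj X e) v * w

/-- The span of the products. -/
noncomputable def spS (Φ : FrobSystem W p) (X : 𝒱.Obj) (n N ν : ℕ) :
    Submodule W.K (W.H (pw X n)) :=
  Submodule.span W.K {x | IsS Φ X n N ν x}

theorem splitSL (hW : WeilConjectures Φ σ X) (hX : HasOneSmallSlope Φ σ X) {n N : ℕ}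
    {i ν : ℕ} (hN : 2 * ν ≤ N + 1) (hNn : N ≤ n) {V : Submodule W.K (W.H (pw X n))}
    (hV : Eff (AlgebraicClosure W.K) Φ i ν V) :
    V ≤ Submodule.span W.K {x | FromL Φ X n N ν x} := by
  classical
  obtain ⟨σ', hσ⟩ := exists_ext (L := AlgebraicClosure W.K) σ
  have hclosed : IsAlgClosed (baseW W (AlgebraicClosure W.K)).K :=
    inferInstanceAs (IsAlgClosed (AlgebraicClosure W.K))
  set L := AlgebraicClosure W.K with hL
  intro x hx
  have h1 := up_Cn (L := L) hV hx
  obtain ⟨ι, hfin, B, lam, hB⟩ := exists_ebasis (baseFrob Φ L) X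
  have hft : Fintype ι := Fintype.ofFinite ι
  have h2 : ∀ y : (baseW W L).H (pw X n), Cn (baseFrob Φ L) _ i ν y →
      (show L ⊗[W.K] W.H (pw X n) from y) ∈
        (Submodule.span W.K {x | FromL Φ X n N ν x}).baseChange L := by
    intro y hy
    have h3 := splitS hB (riemann_base hσ hW.1) (integral_base hσ hW.2) (slope_base' hσ hX)
      hN hNn hy
    have h4 : (spS (baseFrob Φ L) X n N ν : Submodule L (L ⊗[W.K] W.H (pw X n))) ≤
        (Submodule.span W.K {x | FromL Φ X n N ν x}).baseChange L := by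
      refine Submodule.span_le.2 ?_
      rintro _ ⟨e, j, v, w, g1, g2, rfl⟩
      obtain ⟨V', hV', hv⟩ := down_Cn g2
      have hw : (show L ⊗[W.K] W.H (pw X n) from w) ∈
          (⊤ : Submodule W.K (W.H (pw X n))).baseChange L := by
        rw [Submodule.baseChange_top]
        exact Submodule.mem_top
      exact base_mul2 (W := W) (L := L) (proj X e) (𝟙 _)
        (G := Submodule.span W.K {x | FromL Φ X n N ν x}) (fun v' hv' w' hw' =>
          Submodule.subset_span ⟨e, j, V', v', w', g1, hV', hv', by rw [W.map_id]⟩) hv hw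
    exact h4 h3
  have h5 : (spC (baseFrob Φ L) (pw X n) i ν : Submodule L (L ⊗[W.K] W.H (pw X n))) ≤
      (Submodule.span W.K {x | FromL Φ X n N ν x}).baseChange L :=
    Submodule.span_le.2 fun y hy => h2 y hy
  exact Pool.Agent.R940.mem_of_baseChange (h5 h1)

/-- **Generation.** -/
theorem fromPower (hW : WeilConjectures Φ σ X) (hX : HasOneSmallSlope Φ σ X) {n N : ℕ}
    {i c : ℕ} (hN : 2 * c ≤ N + 1) (hNn : N ≤ n) {V : Subspace W (pw X n)}
    (hV : IsEffective Φ i c V) : Within V (spanOf W.K (IsFromPower Φ X n N c)) := by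
  refine (splitSL hW hX hN hNn hV).trans (Submodule.span_mono ?_)
  rintro x ⟨e, j, V', v, w, h1, h2, h3, h4⟩
  exact ⟨e, proj X e, j, v, w, h1, isProjection_iff.2 rfl, ⟨V', h2, h3⟩, h4⟩

/-- The complement of the range. -/
lemma exists_compl {n N : ℕ} {e : Fin (N + 1) → Fin (n + 1)} (he : Function.Injective e)
    (h : N < n) : ∃ (b : ℕ) (e' : Fin (b + 1) → Fin (n + 1)),
      Function.Bijective (Sum.elim e e') := by
  classical
  have hcard : ((Finset.univ.image e)ᶜ : Finset (Fin (n + 1))).card = (n - N - 1) + 1 := by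
    rw [Finset.card_compl, Finset.card_image_of_injective _ he, Fintype.card_fin,
      Finset.card_univ, Fintype.card_fin]
    omega
  refine ⟨n - N - 1, ((Finset.univ.image e)ᶜ : Finset (Fin (n + 1))).orderEmbOfFin hcard, ?_⟩
  rw [Fintype.bijective_iff_injective_and_card]
  refine ⟨Function.Injective.sumElim he (RelEmbedding.injective _) fun a b hab => ?_, ?_⟩
  · have h1 := Finset.orderEmbOfFin_mem _ hcard b
    rw [← hab] at h1
    exact (Finset.mem_compl.1 h1) (Finset.mem_image_of_mem _ (Finset.mem_univ a))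
  · rw [Fintype.card_sum, Fintype.card_fin, Fintype.card_fin, Fintype.card_fin]
    omega

/-- Pull-backs along projections. -/
lemma proj_cv {n N : ℕ} {e : Fin (N + 1) → Fin (n + 1)} (he : Function.Injective e)
    (hNn : N ≤ n) {c : ℕ} {v : W.H (pw X N)} (hv : v ∈ cv W c _) :
    W.map (proj X e) v ∈ cv W c (pw X n) := by
  rcases Nat.eq_or_lt_of_le hNn with heq | hlt
  · subst heq
    have hb : Function.Bijective e := Finite.injective_iff_bijective.1 he
    let g := Equiv.ofBijective e hb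
    refine map_iso_cv (proj X e) (proj X g.symm) ?_ rfl hv
    apply pw_hom_ext
    intro i
    rw [Category.id_comp, Category.assoc, proj_eq, proj_eq, tup_pr, tup_pr]
    congr 1
    exact g.apply_symm_apply i
  · obtain ⟨b, e', hb⟩ := exists_compl he hlt
    have h1 := Pool.Agent.U625.KP.ext_mem_pw (W := W) (X := X) hb hv
      (show (1 : W.H (pw X b)) ∈ cv W 0 _ from by
        have := push_mem_cv (W := W) (j := 0) (𝟙 (pw X b)) (by omega) 1
        rwa [W.push_id] at this)
    rw [map_one, mul_one, add_zero] at h1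
    exact h1

theorem gtc_le (hW : WeilConjectures Φ σ X) (hX : HasOneSmallSlope Φ σ X) {n N c : ℕ}
    (hN : 2 * c ≤ N + 1) (hNn : N ≤ n) (h : GTCUpTo Φ c (pw X N)) : GTCUpTo Φ c (pw X n) := by
  intro i j V hj hV
  refine (fromPower hW hX (N := N) (by omega) hNn hV).trans (Submodule.span_le.2 ?_)
  rintro _ ⟨e, f, j', y, b, h1, h2, ⟨V', hV', hy⟩, rfl⟩
  rw [isProjection_iff.1 h2]
  have h3 : y ∈ cv W j (pw X N) := h j' j V' hj hV' hy
  exact cv_mul (proj_cv h1 hNn h3) b

/-! ### Dominated varieties -/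

/-- The assertion in terms of generalised eigenvectors. -/
def GCU (Φ : FrobSystem W p) (c : ℕ) (Y : 𝒱.Obj) : Prop :=
  ∀ i ν (x : W.H Y), ν ≤ c → Cn Φ Y i ν x → x ∈ cv W ν Y

theorem gcu_iff {L : Type v} [Field L] [Algebra W.K L] [IsAlgClosed L] {c : ℕ}
    (hL : ∀ (i ν : ℕ) (V : Submodule W.K (W.H Y)), IsEffective Φ i ν V ↔ Eff L Φ i ν V) :
    GTCUpTo Φ c Y ↔ GCU (baseFrob Φ L) c Y := by
  constructor
  · intro h i ν x hν hx
    obtain ⟨V, hV, h1⟩ := down_Cn hx
    have h2 := Submodule.baseChange_mono (A := L) (h i ν V hν ((hL _ _ _).2 hV)) h1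
    have h3 := cv_base (W := W) (L := L) ν Y
    have h4 : (show L ⊗[W.K] W.H Y from x) ∈ (cv W ν Y).baseChange L := h2
    rw [← h3] at h4
    exact h4
  · intro h i ν V hν hV x hx
    have h1 := up_Cn (L := L) ((hL _ _ _).1 hV) hx
    have h2 : spC (baseFrob Φ L) Y i ν ≤ cv (baseW W L) ν Y :=
      Submodule.span_le.2 fun y hy => h i ν y hν hy
    have h3 : (1 : L) ⊗ₜ[W.K] x ∈ (cv W ν Y).baseChange L := by
      rw [← cv_base]
      exact h2 h1
    exact Pool.Agent.R940.mem_of_baseChange h3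

/-- Products with algebraic cycles. -/
lemma cyc_cv (hcyc : ∀ (Y : 𝒱.Obj) (j : ℕ) (z : Y.Cycles), Y.IsCyc j z → W.cl Y z ∈ cv W j Y)
    {j l : ℕ} {z : Y.Cycles} (hz : Y.IsCyc j z) {x : W.H Y} (hx : x ∈ cv W l Y) :
    W.cl Y z * x ∈ cv W (l + j) Y := by
  rw [W.even_comm (W.cl_mem hz)]
  refine cv_ind (P := fun x => x * W.cl Y z ∈ cv W (l + j) Y) ?_ ?_ ?_ ?_ hx
  · rw [zero_mul]; exact Submodule.zero_mem _
  · intro x y hx hy; rw [add_mul]; exact Submodule.add_mem _ hx hy
  · intro c x hx; rw [smul_mul_assoc]; exact Submodule.smul_mem _ _ hx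
  · intro V g i a h1 ha
    rw [← W.push_mul, ← W.cl_pull, ← W.even_comm (W.cl_mem (ops.pull_mem g hz))]
    exact push_cv g (show V.dim + (l + j) ≤ Y.dim + j by omega)
      (cv_mul (hcyc V j _ (ops.pull_mem g hz)) a)

lemma isTate_one (Y : 𝒱.Obj) : IsTate Φ Y 0 (1 : W.H Y) := by
  refine ⟨W.one_mem Y, 1, one_pos, ?_⟩
  rw [mul_zero, pow_zero, one_smul]
  exact map_one (W.map (W534.iter (Φ.Fr Y) 1))

/-- Domination by a cycle. -/
theorem GCU.of_dom (hcyc : ∀ (Y : 𝒱.Obj) (j : ℕ) (z : Y.Cycles), Y.IsCyc j z →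
    W.cl Y z ∈ cv W j Y) {f : Y' ⟶ Y} {j : ℕ} {z : Y'.Cycles} {r : W.K} (hz : Y'.IsCyc j z)
    (hr : r ≠ 0) (h : W.push f (W.cl Y' z) = r • 1) {c : ℕ} (hY : GCU Φ c Y') : GCU Φ c Y := by
  rcases subsingleton_or_nontrivial (W.H Y) with hs | hn
  · intro i j x _ _
    rw [Subsingleton.elim x 0]
    exact Submodule.zero_mem _
  have hd : Y'.dim = Y.dim + j := by
    refine dim_of_push (W := W) (f := f) (c := r⁻¹ • W.cl Y' z)
      (Submodule.smul_mem _ _ (W.cl_mem hz)) ?_
    rw [map_smul, h, smul_smul, inv_mul_cancel₀ hr, one_smul]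
  intro i l x hl hx
  have h1 := Cn_mul f (isTate_one (Φ := Φ) Y') hx
  rw [one_mul, add_zero] at h1
  have h2 := cyc_cv hcyc hz (hY _ _ _ hl h1)
  have h3 := push_cv (W := W) f (show Y'.dim + l ≤ Y.dim + (l + j) by omega) h2
  rw [W.push_mul, h, smul_mul_assoc, one_mul] at h3
  have h4 := Submodule.smul_mem _ r⁻¹ h3
  rwa [smul_smul, inv_mul_cancel₀ hr, one_smul] at h4

end Pool.Agent.U625.CP
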