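import Pool.Agent.U625.CP.Defs
import Pool.Agent.U625.CP.Comb
import Pool.Agent.U625.KP.Split

/-!
# Classes of small coniveau come from few factors
-/

set_option linter.unusedVariables false
set_option linter.unusedSectionVars false

open CategoryTheory AlgebraicGeometry CategoryTheory.Limits TensorProduct

universe u v

namespace Pool.Agent.U625.CP

open Pool.Agent.H914 Pool.Agent.H447 Pool.Agent.W534 Pool.Agent.Y163 VarClass Obj WeilCohomology
  Module Polynomial
open Pool.Agent.R940 hiding mem_of_baseChange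
open Pool.Agent.N204.GT
open Pool.Agent.U625.GP
open Pool.Agent.U625.KP (p_gt)
open Pool.Agent.N204.GH (cv push_cv ext_cv cv_anti push_mem_cv map_iso_cv bij_of_perm)

variable {k : Type u} [Field k] {𝒱 : VarClass k} {ops : CycleOps 𝒱}
  {W : WeilCohomology.{u, v} ops} {X Y Y' Z U S : 𝒱.Obj} {p : ℕ}
  [hp : Fact p.Prime] {Φ : FrobSystem W p} {σ : W.K →+* ℂ}

/-- Classes from `N + 1` factors. -/
def IsS (Φ : FrobSystem W p) (X : 𝒱.Obj) (n N c : ℕ) (x : W.H (pw X n)) : Prop :=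
  ∃ (e : Fin (N + 1) → Fin (n + 1)) (j : ℕ) (v : W.H (pw X N)) (w : W.H (pw X n)),
    Function.Injective e ∧ Cn Φ _ j c v ∧
    x = W.map (proj X e) v * W.map (𝟙 _) w

section

variable {ι : Type v} [Fintype ι] [DecidableEq ι] {B : HBasis W X ι} {lam : ι → W.K}

/-- Divisibility of the products of eigenvalues. -/
lemma div_prod (hF : ∀ l, IsIntegral ℤ (lam l)) [Algebra.IsAlgebraic ℚ (EF lam)] {e : ℕ}
    {n : ℕ} (J : Fin n → ι) (ν : ℕ) :
    IsIntegral ℤ ((∏ j, lam (J j)) / (p : W.K) ^ (e * ν)) ↔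
      ∀ ψ : EF lam →ₐ[ℚ] PadicAlgCl p, ∏ j, ‖ψ (el lam (J j))‖ ≤ (((p : ℝ) ^ e)⁻¹) ^ ν := by
  have hdown : ∀ z : EF lam, IsIntegral ℤ (algebraMap (EF lam) W.K z) ↔ IsIntegral ℤ z := fun z =>
    isIntegral_algebraMap_iff (algebraMap (EF lam) W.K).injective
  have hz : IsIntegral ℤ (∏ j, el lam (J j)) :=
    IsIntegral.prod _ fun j _ => (hdown _).1 (hF (J j))
  have e1 : (∏ j, lam (J j)) / (p : W.K) ^ (e * ν) =
      algebraMap (EF lam) W.K ((∏ j, el lam (J j)) / (p : EF lam) ^ (e * ν)) := by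
    rw [map_div₀, map_pow, map_natCast, map_prod]
    rfl
  rw [e1, hdown, div_iff hz]
  refine forall_congr' fun ψ => ?_
  rw [map_prod, norm_prod, inv_pow, ← pow_mul]

/-- The eigenvalue in degree zero. -/
lemma lam_one (hB : IsEig Φ B lam) {l : ι} (h0 : B.deg l = 0) : lam l = 1 := by
  have h1 : B.b l ∈ W.gr X 0 := by
    have := B.mem l
    rwa [h0] at this
  rw [W.gr_zero X] at h1
  obtain ⟨r, hr⟩ := Submodule.mem_span_singleton.1 h1
  have h2 := hB l
  obtain ⟨m, hm⟩ := (Module.End.mem_maxGenEigenspace _ _ _).1 h2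
  have h3 : frob Φ X 1 (B.b l) = B.b l := by
    rw [← hr, map_smul]
    congr 1
    exact map_one (W.map (W534.iter (Φ.Fr X) 1))
  have h4 : ∀ m : ℕ, ((frob Φ X 1 - lam l • (1 : Module.End W.K (W.H X))) ^ m) (B.b l) =
      (1 - lam l) ^ m • B.b l := by
    intro m
    induction m with
    | zero => rw [pow_zero, pow_zero, one_smul]; rfl
    | succ m ih =>
      have h5 : B.b l - lam l • B.b l = (1 - lam l) • B.b l := by rw [sub_smul, one_smul]
      rw [pow_succ', Module.End.mul_apply, ih, map_smul, LinearMap.sub_apply, h3,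
        LinearMap.smul_apply, Module.End.one_apply, h5, smul_smul, pow_succ]
  rw [h4 m] at hm
  rcases smul_eq_zero.1 hm with h5 | h5
  · have h6 := eq_zero_of_pow_eq_zero h5
    exact (sub_eq_zero.1 h6).symm
  · exact absurd h5 (B.b.ne_zero l)

/-- The p-adic eigenvalues. -/
lemma padic (hB : IsEig Φ B lam) (hint : HasIntegralPolys Φ σ X)
    (ψ : EF lam →ₐ[ℚ] PadicAlgCl p) (l : ι) : IsPadicEigenvalue Φ σ X (B.deg l) (ψ (el lam l)) := by
  obtain ⟨P, hP⟩ := hint (B.deg l)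
  refine ⟨P, hP.symm, ?_⟩
  have hroot : (frobPoly Φ σ X 1 (B.deg l)).IsRoot (σ (lam l)) := by
    rw [frobPoly_eq, IsRoot.def, Polynomial.eval_map, Polynomial.eval₂_at_apply]
    have h1 := root_charpoly hB l
    rw [IsRoot.def] at h1
    rw [h1, map_zero]
  rw [hP, IsRoot.def, Polynomial.eval_map] at hroot
  have h1 : σ (aeval (lam l) P) = 0 := by
    rw [aeval_def, hom_eval₂, ← hroot]
    congr 1
    exact RingHom.ext_int _ _
  have h2 : aeval (lam l) P = 0 := (map_eq_zero σ).1 h1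
  have h3 : aeval (el lam l) P = 0 := by
    apply (algebraMap (EF lam) W.K).injective
    rw [map_zero, ← aeval_algebraMap_apply]
    exact h2
  have h4 := aeval_algHom_apply (ψ.restrictScalars ℤ) (el lam l) P
  rw [h3, map_zero] at h4
  exact h4

lemma proj_id (X : 𝒱.Obj) (n : ℕ) : proj X (id : Fin (n + 1) → Fin (n + 1)) = 𝟙 _ := by
  apply pw_hom_ext
  intro i
  rw [Category.id_comp, proj_eq, tup_pr]
  rfl

/-- **Splitting.** -/
theorem splitS [IsAlgClosed W.K] (hB : IsEig Φ B lam) (hRH : RiemannHyp Φ σ X)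
    (hint : HasIntegralPolys Φ σ X) (hX : HasOneSmallSlope Φ σ X) {n N : ℕ} {i ν : ℕ}
    (hN : 2 * ν ≤ N + 1) (hNn : N ≤ n) {c : W.H (pw X n)} (hc : Cn Φ (pw X n) i ν c) :
    c ∈ Submodule.span W.K {x | IsS Φ X n N ν x} := by
  rcases Nat.eq_or_lt_of_le hNn with heq | hlt
  · subst heq
    refine Submodule.subset_span ⟨id, i, c, 1, fun _ _ h => h, hc, ?_⟩
    rw [proj_id, W.map_id, W.map_id, mul_one]
  have hdec : DecidableEq (EF lam) := Classical.decEq _
  obtain ⟨s, α₀, hs, hα₀, hE, hgr⟩ := hc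
  have hF := weilFamily hB hRH hint (slopeDenominator hRH hint)
  have halg := isAlg_EF hF
  have hx0 : ∀ l, lam l ≠ 0 := fun l => gen_ne_zero (hB l) (B.b.ne_zero l)
  have he := Φ.e_pos X
  have hpos : (0 : ℝ) < p := zero_lt_one.trans (p_gt (p := p))
  obtain ⟨S, S', hS, hS', hSS, hfr⟩ := frob_pr Φ X n
  obtain ⟨bs, hbs⟩ := exists_monBasis B n
  rw [← bs.sum_repr c]
  refine Submodule.sum_mem _ fun I _ => ?_
  by_cases h0 : bs.repr c I = 0
  · rw [h0, zero_smul]; exact Submodule.zero_mem _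
  refine Submodule.smul_mem _ _ ?_
  rw [hbs]
  have hEq : (∏ j, lam (I j)) ^ (S' * s) = α₀ ^ S := by
    by_contra hne
    apply h0
    have h3 : c ∈ (frob Φ (pw X n) (S * s)).maxGenEigenspace (α₀ ^ S) := by
      have h4 := gen_mono _ _ S hE
      rwa [← frob_mul_eq, mul_comm s S] at h4
    refine repr_zero (Module.End.independent_maxGenEigenspace (frob Φ (pw X n) (S * s))) bs
      (fun I => (∏ j, lam (I j)) ^ (S' * s)) (fun I => ?_) h3 hne
    rw [hbs]
    exact mon_gen Φ hB hfr I s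
  have hdiv : IsIntegral ℤ ((∏ j, lam (I j)) / (p : W.K) ^ (Φ.e X * ν)) := by
    refine IsIntegral.of_pow (Nat.mul_pos hS' hs) ?_
    have e1 : ((∏ j, lam (I j)) / (p : W.K) ^ (Φ.e X * ν)) ^ (S' * s) =
        (α₀ / (p : W.K) ^ (Φ.e (pw X n) * s * ν)) ^ S := by
      rw [div_pow, div_pow, hEq, ← pow_mul, ← pow_mul]
      congr 2
      calc Φ.e X * ν * (S' * s) = (S' * Φ.e X) * (ν * s) := by ring
        _ = (S * Φ.e (pw X n)) * (ν * s) := by rw [hSS]
        _ = _ := by ring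
    rw [e1]
    exact hα₀.pow S
  rw [div_prod hF.int] at hdiv
  have ht0 : (0 : ℝ) < ((p : ℝ) ^ Φ.e X)⁻¹ := inv_pos.2 (pow_pos hpos _)
  have ht1 : ((p : ℝ) ^ Φ.e X)⁻¹ ≤ 1 := inv_le_one_of_one_le₀ (one_le_pow₀ (p_gt (p := p)).le)
  have hle1 : ∀ (ψ : EF lam →ₐ[ℚ] PadicAlgCl p) l, ‖ψ (el lam l)‖ ≤ 1 := by
    intro ψ l
    have h1 : IsIntegral ℤ (el lam l) :=
      (isIntegral_algebraMap_iff (algebraMap (EF lam) W.K).injective).1 (hF.int l)
    exact padic_integral (h1.map (ψ.restrictScalars ℤ))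
  obtain ⟨J, hJc, hJ⟩ := few' (fun (ψ : EF lam →ₐ[ℚ] PadicAlgCl p) l => ‖ψ (el lam l)‖)
    (fun _ _ => norm_nonneg _) hle1 ht0 ht1 (el lam) (fun l => 1 ≤ B.deg l)
    (fun ψ l hl => by
      have h1 : lam l = 1 := lam_one hB (by omega)
      have h2 : el lam l = 1 := Subtype.ext h1
      change ‖ψ (el lam l)‖ = 1
      rw [h2, map_one, norm_one])
    (by
      rcases hX with h1 | ⟨y₀, hy₀, h1⟩
      · exact Or.inl fun ψ l hl => h1 _ _ hl (padic hB hint ψ l)
      · refine Or.inr ⟨fun ψ z => ψ z = y₀, fun ψ l _ h2 => ?_, fun ψ l hl h2 => ?_,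
          fun ψ l l' _ _ h2 h3 => ψ.toRingHom.injective (h2.trans h3.symm)⟩
        · change ‖ψ (el lam l)‖ = 1
          rw [h2, hy₀]
        · exact (h1 _ _ hl (padic hB hint ψ l)).resolve_left h2)
    I ν hdiv hN (by omega)
  have hJ1 : J.Nonempty := Finset.card_pos.1 (by omega)
  have hJ2 : Jᶜ.Nonempty := Finset.card_pos.1 (by
    rw [Finset.card_compl, Fintype.card_fin]; omega)
  have hcnt : ∀ j, cnt (id : Fin (n + 1) → Fin (n + 1)) j = 1 := by
    intro j
    rw [cnt, Finset.card_eq_one]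
    exact ⟨j, by ext i; simp⟩
  obtain ⟨a, b, e, e', hperm, q1, q2⟩ := exists_subword (id : Fin (n + 1) → Fin (n + 1))
    (fun j => if j ∈ J then 1 else 0) (by
      intro j
      rw [hcnt]
      split_ifs <;> omega)
  have hsum1 : ∀ F : Fin (n + 1) → ℝ, ∏ t, F (e t) = ∏ j ∈ J, F j := by
    intro F
    have h1 := prod_cnt (id ∘ e) F
    rw [q1] at h1
    change ∏ t, F (e t) = _ at h1
    rw [h1]
    simp only [pow_ite, pow_one, pow_zero]
    rw [Finset.prod_ite_mem, Finset.univ_inter]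
  have hcard1 : a = J.card := by
    have h1 := sum_cnt_nat (id ∘ e) fun _ => 1
    rw [q1] at h1
    simpa using h1
  have hcard2 : a + b = n + 1 := by
    have := hperm.length_eq
    rwa [List.length_append, List.length_ofFn, List.length_ofFn, List.length_finRange] at this
  have haN : a = N + 1 := by omega
  subst haN
  obtain ⟨b, rfl⟩ : ∃ r, b = r + 1 := ⟨b - 1, by omega⟩
  obtain ⟨ε, hε⟩ := mon_split B I e e' hperm
  have hCN : CN p (Φ.e X) 1 lam 1 1 (cnt (I ∘ e)) ν := by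
    have h1 := (div_prod hF.int (I ∘ e) ν).2 (fun ψ => by
      rw [show ∏ j, ‖ψ (el lam ((I ∘ e) j))‖ = ∏ j ∈ J, ‖ψ (el lam (I j))‖ from
        hsum1 fun j => ‖ψ (el lam (I j))‖]
      exact hJ ψ)
    rw [CN, one_pow, one_mul, ← prod_cnt, mul_one, mul_one, mul_one, pow_one]
    exact h1
  have hv := mon_Cn hB (b := N) one_pos hCN
  have hinj : Function.Injective e := by
    have h1 := (bij_of_perm hperm).1
    exact fun x y hxy => Sum.inl_injective (h1 (show Sum.elim e e' (Sum.inl x) =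
      Sum.elim e e' (Sum.inl y) from hxy))
  rw [hε, ← proj_eq, ← proj_eq]
  refine Submodule.smul_mem _ _ (Submodule.subset_span ⟨e, _, _, W.map (proj X e')
    (mon B b (I ∘ e')), hinj, hv, ?_⟩)
  rw [W.map_id]

end

end Pool.Agent.U625.CP
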